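import Pool.Agent.N733.SC.Dens
import Pool.Agent.TH681.TW.Mid
import Pool.Agent.N733.TW.D

/-!
# Multiplicative functions and linear forms in logarithms
-/

set_option autoImplicit false

namespace Pool.Agent.N733.SC

open Pool.Agent.H301R2.SSE Pool.Agent.H137R5.Tow Pool.Agent.TH681.TW

/-- no multiplicative cubes of dimension three (the proof of `Pool.Agent.TH681.TW.no_cube`) -/
theorem no_cube {v A P0 Q0 P1 Q1 P2 Q2 : ℂ} (hv : v ≠ 0) (cA : A ≠ 0) (cP0 : P0 ≠ 0) (cP1 : P1 ≠ 0)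
    (cP2 : P2 ≠ 0) (s0 : Transcendental ℚ (Q0 / P0)) (s1 : Transcendental ℚ (Q1 / P1))
    (s2 : Transcendental ℚ (Q2 / P2))
    (m000 : v * (A * P0 * P1 * P2) ∈ Lt) (m100 : v * (A * Q0 * P1 * P2) ∈ Lt)
    (m010 : v * (A * P0 * Q1 * P2) ∈ Lt) (m110 : v * (A * Q0 * Q1 * P2) ∈ Lt)
    (m001 : v * (A * P0 * P1 * Q2) ∈ Lt) (m101 : v * (A * Q0 * P1 * Q2) ∈ Lt)
    (m011 : v * (A * P0 * Q1 * Q2) ∈ Lt) (m111 : v * (A * Q0 * Q1 * Q2) ∈ Lt) : False := by
  set u : ℂ := A * (P0 * P1 * P2) * v with hu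
  have hu0 : u ≠ 0 := by
    rw [hu]
    exact mul_ne_zero (mul_ne_zero cA (mul_ne_zero (mul_ne_zero cP0 cP1) cP2)) hv
  have e000 : u * 1 = v * (A * P0 * P1 * P2) := by rw [hu]; ring
  have e100 : u * (Q0 / P0) = v * (A * Q0 * P1 * P2) := by rw [hu]; field_simp
  have e010 : u * (Q1 / P1) = v * (A * P0 * Q1 * P2) := by rw [hu]; field_simp
  have e110 : u * (Q0 / P0 * (Q1 / P1)) = v * (A * Q0 * Q1 * P2) := by rw [hu]; field_simp
  have b000 : (Q2 / P2) * (u * 1) = v * (A * P0 * P1 * Q2) := by rw [hu]; field_simp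
  have b100 : (Q2 / P2) * (u * (Q0 / P0)) = v * (A * Q0 * P1 * Q2) := by rw [hu]; field_simp
  have b010 : (Q2 / P2) * (u * (Q1 / P1)) = v * (A * P0 * Q1 * Q2) := by rw [hu]; field_simp
  have b110 : (Q2 / P2) * (u * (Q0 / P0 * (Q1 / P1))) = v * (A * Q0 * Q1 * Q2) := by
    rw [hu]; field_simp
  rcases square _ _ s0 s1 with h | h
  · refine coreC (Q2 / P2) s2 (u * 1) (u * (Q0 / P0)) (u * (Q1 / P1)) (h.smul hu0)
      ?_ ?_ ?_ ?_ ?_ ?_
    · rw [e000]; exact m000
    · rw [e100]; exact m100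
    · rw [e010]; exact m010
    · rw [b000]; exact m001
    · rw [b100]; exact m101
    · rw [b010]; exact m011
  · refine coreC (Q2 / P2) s2 (u * 1) (u * (Q0 / P0)) (u * (Q0 / P0 * (Q1 / P1)))
      (h.smul hu0) ?_ ?_ ?_ ?_ ?_ ?_
    · rw [e000]; exact m000
    · rw [e100]; exact m100
    · rw [e110]; exact m110
    · rw [b000]; exact m001
    · rw [b100]; exact m101
    · rw [b110]; exact m111

/-- a multiplicative function without zeros; among any four primes there are two for which the quotient of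
the values is transcendental -/
def MF (F : ℕ → ℂ) : Prop :=
  (∀ m n, 0 < m → 0 < n → Nat.Coprime m n → F (m * n) = F m * F n) ∧ (∀ n, 0 < n → F n ≠ 0) ∧
    ∀ p : Fin 4 → ℕ, Function.Injective p → (∀ i, (p i).Prime) →
      ∃ i j, Transcendental ℚ (F (p j) / F (p i))

theorem noGrid {F : ℕ → ℂ} (hF : MF F) {v : ℂ} (hv : v ≠ 0) : NoGrid (fun n => v * F n ∈ Lt) := by
  intro m p q r hm hp hq hr hp' hq' hr' hpq hqr dp dq dr hall
  obtain ⟨hmul, hne, htr⟩ := hF
  obtain ⟨i0, i1, hi⟩ := htr p hp hp'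
  obtain ⟨j0, j1, hj⟩ := htr q hq hq'
  obtain ⟨k0, k1, hk⟩ := htr r hr hr'
  have e : ∀ i j k, F (m * p i * q j * r k) = F m * F (p i) * F (q j) * F (r k) := by
    intro i j k
    have c1 : Nat.Coprime m (p i) := ((hp' i).coprime_iff_not_dvd.2 (dp i)).symm
    have c2 : Nat.Coprime (m * p i) (q j) := by
      refine ((hq' j).coprime_iff_not_dvd.2 ?_).symm
      intro h
      rcases (hq' j).dvd_mul.1 h with h | h
      · exact dq j h
      · have := (Nat.prime_dvd_prime_iff_eq (hq' j) (hp' i)).1 h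
        have := hpq i j
        omega
    have c3 : Nat.Coprime (m * p i * q j) (r k) := by
      refine ((hr' k).coprime_iff_not_dvd.2 ?_).symm
      intro h
      have l1 := hpq i j
      have l2 := hqr j k
      rcases (hr' k).dvd_mul.1 h with h | h
      · rcases (hr' k).dvd_mul.1 h with h | h
        · exact dr k h
        · have := (Nat.prime_dvd_prime_iff_eq (hr' k) (hp' i)).1 h
          omega
      · have := (Nat.prime_dvd_prime_iff_eq (hr' k) (hq' j)).1 h
        omega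
    have hpi := (hp' i).pos
    have hqj := (hq' j).pos
    have hrk := (hr' k).pos
    rw [hmul _ _ (mul_pos (mul_pos hm hpi) hqj) hrk c3, hmul _ _ (mul_pos hm hpi) hqj c2,
      hmul _ _ hm hpi c1]
  have hall' : ∀ i j k, v * (F m * F (p i) * F (q j) * F (r k)) ∈ Lt := by
    intro i j k
    rw [← e]
    exact hall i j k
  exact no_cube hv (hne m hm) (hne _ (hp' i0).pos) (hne _ (hq' j0).pos) (hne _ (hr' k0).pos) hi hj hk
    (hall' i0 j0 k0) (hall' i1 j0 k0) (hall' i0 j1 k0) (hall' i1 j1 k0) (hall' i0 j0 k1)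
    (hall' i1 j0 k1) (hall' i0 j1 k1) (hall' i1 j1 k1)

open Classical in
/-- **Multiplicative functions.** The constant is absolute. -/
theorem mf_count : ∃ C : ℝ, 0 ≤ C ∧ ∀ F : ℕ → ℂ, MF F → ∀ v : ℂ, v ≠ 0 → ∀ x : ℕ, 16 ≤ x →
    (((Finset.Icc 1 x).filter (fun n : ℕ => v * F n ∈ Lt)).card : ℝ) ≤
      C * x * Real.log (Real.log x) ^ 3 / Real.log x := by
  obtain ⟨C, hC0, hC⟩ := thin
  exact ⟨C, hC0, fun F hF v hv x hx => hC _ (noGrid hF hv) x hx⟩

/-- **Lindemann** -/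
theorem lind {α : ℂ} (h : IsAlgebraic ℚ α) (h0 : α ≠ 0) : Transcendental ℚ (Complex.exp α) := by
  intro hal
  have := Pool.Agent.H297R2.baker_inhom (ι := Unit) (fun _ => α) (fun _ => hal) (by
    rw [linearIndependent_unique_iff]
    exact h0) (-α) h.neg (fun _ => 1) (fun _ => isAlgebraic_one) (by simp)
  exact one_ne_zero (this.2 ())

/-- powers of the values of multiplicative functions -/
theorem mf_pow {f : ℕ → ℝ} (hmul : ∀ m n, 0 < m → 0 < n → Nat.Coprime m n → f (m * n) = f m * f n)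
    (hpos : ∀ n, 0 < n → 0 < f n) (hal : ∀ n, 0 < n → IsAlgebraic ℚ (f n))
    (hf : ∀ p : Fin 4 → ℕ, Function.Injective p → (∀ i, (p i).Prime) → ∃ i j, f (p i) ≠ f (p j))
    {c : ℂ} (hc : IsAlgebraic ℚ c) (hci : ∀ r : ℚ, c ≠ r) :
    MF (fun n => Complex.exp (c * ((Real.log (f n) : ℝ) : ℂ))) := by
  refine ⟨?_, fun n _ => Complex.exp_ne_zero _, ?_⟩
  · intro m n hm hn hmn
    simp only
    rw [hmul m n hm hn hmn, Real.log_mul (hpos m hm).ne' (hpos n hn).ne', ← Complex.exp_add]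
    push_cast
    congr 1
    ring
  · intro p hp hp'
    obtain ⟨i, j, hij⟩ := hf p hp hp'
    refine ⟨i, j, ?_⟩
    have h1 : Complex.exp (c * ((Real.log (f (p j)) : ℝ) : ℂ)) /
        Complex.exp (c * ((Real.log (f (p i)) : ℝ) : ℂ)) =
        Complex.exp (c * ((Real.log (f (p j)) - Real.log (f (p i)) : ℝ) : ℂ)) := by
      rw [← Complex.exp_sub]
      push_cast
      congr 1
      ring
    rw [h1]
    have hi0 := hpos _ (hp' i).pos
    have hj0 := hpos _ (hp' j).pos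
    refine Pool.Agent.N733.TW.gs hc hci ?_ ?_
    · rw [Complex.ofReal_ne_zero, sub_ne_zero]
      intro h
      exact hij (Real.log_injOn_pos (Set.mem_Ioi.2 hj0) (Set.mem_Ioi.2 hi0) h).symm
    · rw [← Complex.ofReal_exp, Real.exp_sub, Real.exp_log hj0, Real.exp_log hi0]
      push_cast
      rw [div_eq_mul_inv]
      exact ((hal _ (hp' j).pos).algebraMap (A := ℂ)).mul
        ((hal _ (hp' i).pos).algebraMap (A := ℂ)).inv

/-- exponentials of additive functions -/
theorem mf_exp {g : ℕ → ℂ} (hadd : ∀ m n, 0 < m → 0 < n → Nat.Coprime m n → g (m * n) = g m + g n)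
    (hal : ∀ n, 0 < n → IsAlgebraic ℚ (g n))
    (hg : ∀ p : Fin 4 → ℕ, Function.Injective p → (∀ i, (p i).Prime) → ∃ i j, g (p i) ≠ g (p j)) :
    MF (fun n => Complex.exp (g n)) := by
  refine ⟨?_, fun n _ => Complex.exp_ne_zero _, ?_⟩
  · intro m n hm hn hmn
    simp only
    rw [hadd m n hm hn hmn, ← Complex.exp_add]
  · intro p hp hp'
    obtain ⟨i, j, hij⟩ := hg p hp hp'
    refine ⟨i, j, ?_⟩
    simp only
    rw [← Complex.exp_sub]
    exact lind ((hal _ (hp' j).pos).sub (hal _ (hp' i).pos)) (sub_ne_zero.2 (Ne.symm hij))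

end Pool.Agent.N733.SC
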